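import Pool.Agent.H27.HB.TA

/-!
# SGN: extremals have a sign (MP_8352e3_an)
-/

set_option autoImplicit false

namespace Pool.Agent.H60.HB.SGN
open MeasureTheory Set Filter Topology Pool.Agent.H80.HS Pool.Agent.H93.HQ Pool.Agent.H27.HB
open scoped ContDiff ENNReal

theorem int_norm_rpow {n : ℕ} {E : Type} [NormedAddCommGroup E] {q : ℝ} (hq : 0 < q)
    {f : H n → E} (hf : MemLp f (ENNReal.ofReal q)) : Integrable fun z => ‖f z‖ ^ q := by
  have h := hf.integrable_norm_rpow (by simpa using hq) ENNReal.ofReal_ne_top
  rwa [ENNReal.toReal_ofReal hq.le] at h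

theorem pf_SGN (hCLA : T_CLA) (hABS : T_ABS) (hSOB : T_SOB) : T_SGN := by
  intro n hn p S hp hp2 hOpt u g hE
  obtain ⟨hCl, hmu, heg⟩ := hE
  have hp0 : (0 : ℝ) < p := by linarith
  have hq0 : (0 : ℝ) < 2 * n + 2 - p := by linarith
  have hq : 0 < ps n p := by unfold ps; positivity
  have hth0 : 0 < th n p := by unfold th; positivity
  have hth1 : th n p < 1 := by
    unfold th
    rw [div_lt_one (by positivity)]
    linarith
  have hA := hABS n hn p hp hp2 u g hCl
  have h1 := hCLA n hn p hp hp2 (fun z => |u z|) u (fun z => Real.sign (u z) • g z) g (1 / 2)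
    (1 / 2) hA hCl
  have h2 := hCLA n hn p hp hp2 (fun z => |u z|) u (fun z => Real.sign (u z) • g z) g (1 / 2)
    (-(1 / 2)) hA hCl
  have s1 := hSOB n hn p S hp hp2 hOpt _ _ h1
  have s2 := hSOB n hn p S hp hp2 hOpt _ _ h2
  set up : H n → ℝ := fun z => 1 / 2 * |u z| + 1 / 2 * u z with hup
  set um : H n → ℝ := fun z => 1 / 2 * |u z| + -(1 / 2) * u z with hum
  set gp : H n → G n := fun z => (1 / 2 : ℝ) • (Real.sign (u z) • g z) + (1 / 2 : ℝ) • g z with hgp
  set gm : H n → G n := fun z => (1 / 2 : ℝ) • (Real.sign (u z) • g z) + (-(1 / 2) : ℝ) • g z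
    with hgm
  -- integrability
  have iup := int_norm_rpow hq h1.1
  have ium := int_norm_rpow hq h2.1
  have igp := int_norm_rpow hp0 h1.2.1
  have igm := int_norm_rpow hp0 h2.2.1
  have ig := int_norm_rpow hp0 hCl.2.1
  have hhalf : (1 / 2 : ℝ) ^ p ≤ 1 / 2 := by
    have := Real.rpow_le_rpow_of_exponent_ge (by norm_num : (0 : ℝ) < 1 / 2) (by norm_num) hp.le
    rwa [Real.rpow_one] at this
  -- pointwise inequalities
  have hgpt : ∀ z, ‖gp z‖ ^ p + ‖gm z‖ ^ p ≤ ‖g z‖ ^ p := by
    intro z
    rcases lt_trichotomy (u z) 0 with h | h | h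
    · have e1 : gp z = 0 := by
        rw [hgp]
        simp only [Real.sign_of_neg h]
        module
      have e2 : gm z = -g z := by
        rw [hgm]
        simp only [Real.sign_of_neg h]
        module
      rw [e1, e2, norm_zero, norm_neg, Real.zero_rpow hp0.ne', zero_add]
    · have e1 : gp z = (1 / 2 : ℝ) • g z := by
        rw [hgp]
        simp only [h, Real.sign_zero]
        module
      have e2 : gm z = (-(1 / 2) : ℝ) • g z := by
        rw [hgm]
        simp only [h, Real.sign_zero]
        module
      rw [e1, e2, norm_smul, norm_smul, norm_neg]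
      have e3 : ‖(1 / 2 : ℝ)‖ = 1 / 2 := by rw [Real.norm_eq_abs, abs_of_pos (by norm_num)]
      rw [e3, Real.mul_rpow (by norm_num) (norm_nonneg _)]
      have := Real.rpow_nonneg (norm_nonneg (g z)) p
      nlinarith
    · have e1 : gp z = g z := by
        rw [hgp]
        simp only [Real.sign_of_pos h]
        module
      have e2 : gm z = 0 := by
        rw [hgm]
        simp only [Real.sign_of_pos h]
        module
      rw [e1, e2, norm_zero, Real.zero_rpow hp0.ne', add_zero]
  have hupt : ∀ z, |up z| ^ ps n p + |um z| ^ ps n p = |u z| ^ ps n p := by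
    intro z
    rcases le_total (u z) 0 with h | h
    · have e1 : up z = 0 := by
        rw [hup]
        simp only [abs_of_nonpos h]
        ring
      have e2 : um z = -u z := by
        rw [hum]
        simp only [abs_of_nonpos h]
        ring
      rw [e1, e2, abs_zero, abs_neg, Real.zero_rpow hq.ne', zero_add]
    · have e1 : up z = u z := by
        rw [hup]
        simp only [abs_of_nonneg h]
        ring
      have e2 : um z = 0 := by
        rw [hum]
        simp only [abs_of_nonneg h]
        ring
      rw [e1, e2, abs_zero, Real.zero_rpow hq.ne', add_zero]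
  have hen : en p gp + en p gm ≤ en p g := by
    unfold en
    rw [← integral_add igp igm]
    exact integral_mono (igp.add igm) ig hgpt
  have hms : ms (ps n p) up + ms (ps n p) um = 1 := by
    rw [← hmu]
    unfold ms
    have i1 : Integrable fun z => |up z| ^ ps n p := iup
    have i2 : Integrable fun z => |um z| ^ ps n p := ium
    rw [← integral_add i1 i2]
    exact integral_congr_ae (Eventually.of_forall hupt)
  set α := ms (ps n p) up with hα
  set β := ms (ps n p) um with hβ
  have hα0 : 0 ≤ α := integral_nonneg fun z => Real.rpow_nonneg (abs_nonneg _) _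
  have hβ0 : 0 ≤ β := integral_nonneg fun z => Real.rpow_nonneg (abs_nonneg _) _
  have hsum : α ^ th n p + β ^ th n p ≤ 1 := by
    have h3 : S * (α ^ th n p + β ^ th n p) ≤ S * 1 := by
      rw [mul_add, mul_one]
      linarith
    exact le_of_mul_le_mul_left h3 hOpt.1
  have hcase : α = 0 ∨ β = 0 := by
    by_contra hcon
    push Not at hcon
    have ha : 0 < α := lt_of_le_of_ne hα0 hcon.1.symm
    have hb : 0 < β := lt_of_le_of_ne hβ0 hcon.2.symm
    have a1 := Real.rpow_lt_rpow_of_exponent_gt ha (by linarith) hth1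
    have b1 := Real.rpow_lt_rpow_of_exponent_gt hb (by linarith) hth1
    rw [Real.rpow_one] at a1 b1
    linarith
  have hzero : ∀ w : H n → ℝ, Integrable (fun z => |w z| ^ ps n p) → ms (ps n p) w = 0 →
      ∀ᵐ z, w z = 0 := by
    intro w hw h0
    have h3 := (integral_eq_zero_iff_of_nonneg
      (fun z => Real.rpow_nonneg (abs_nonneg (w z)) (ps n p)) hw).1 h0
    filter_upwards [h3] with z hz
    have hz' : |w z| ^ ps n p = 0 := hz
    exact abs_eq_zero.1 ((Real.rpow_eq_zero (abs_nonneg _) hq.ne').1 hz')
  rcases hcase with h0 | h0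
  · right
    filter_upwards [hzero up iup h0] with z hz
    have hz' : 1 / 2 * |u z| + 1 / 2 * u z = 0 := hz
    have := abs_nonneg (u z)
    linarith
  · left
    filter_upwards [hzero um ium h0] with z hz
    have hz' : 1 / 2 * |u z| + -(1 / 2) * u z = 0 := hz
    have := abs_nonneg (u z)
    linarith

end Pool.Agent.H60.HB.SGN
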