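import Pool.Agent.H27.HB.TA

/-!
# TQ: the Sobolev quotient on test functions (MP_8352e3_an)
-/

set_option autoImplicit false

namespace Pool.Agent.H60.HB.TQ
open MeasureTheory Set Filter Topology Pool.Agent.H80.HS Pool.Agent.H93.HQ Pool.Agent.H27.HB
open scoped ContDiff ENNReal

theorem hg_smul (hHGA : T_HGA) {n : ℕ} {u : H n → ℝ} (hu : Differentiable ℝ u) (c : ℝ) (z : H n) :
    hg (fun x => c * u x) z = c • hg u z := by
  have h := (hHGA n u u z (hu z) (hu z)).1 c 0
  simp only [zero_mul, add_zero, zero_smul] at h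
  exact h

theorem ms_mul {n : ℕ} (q : ℝ) (u : H n → ℝ) {c : ℝ} (hc : 0 ≤ c) :
    ms q (fun z => c * u z) = c ^ q * ms q u := by
  unfold ms
  rw [← integral_const_mul]
  refine integral_congr_ae (Eventually.of_forall fun z => ?_)
  simp only
  rw [abs_mul, abs_of_nonneg hc, Real.mul_rpow hc (abs_nonneg _)]

theorem en_mul (hHGA : T_HGA) {n : ℕ} (p : ℝ) {u : H n → ℝ} (hu : Differentiable ℝ u) {c : ℝ}
    (hc : 0 ≤ c) : en p (hg fun z => c * u z) = c ^ p * en p (hg u) := by
  unfold en
  rw [← integral_const_mul]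
  refine integral_congr_ae (Eventually.of_forall fun z => ?_)
  simp only
  rw [hg_smul hHGA hu c z, norm_smul, Real.norm_eq_abs, abs_of_nonneg hc,
    Real.mul_rpow hc (norm_nonneg _)]

theorem pf_TQ (hHGA : T_HGA) : T_TQ := by
  intro n _ p S hp hp2 hOpt
  have hp0 : (0 : ℝ) < p := by linarith
  have hq0 : (0 : ℝ) < 2 * n + 2 - p := by linarith
  have hps : 0 < ps n p := by unfold ps; positivity
  have hth : 0 < th n p := by unfold th; positivity
  have hthp : p / ps n p = th n p := by
    unfold th ps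
    field_simp
  have hgr : ∀ u : H n → ℝ, Tst u → (∫ z, grad u z ^ p) = en p (hg u) := by
    intro u hu
    unfold en
    refine integral_congr_ae (Eventually.of_forall fun z => ?_)
    simp only
    have hd : DifferentiableAt ℝ u z := (hu.1.differentiable (by simp)) z
    rw [(hHGA n u u z hd hd).2.2.2]
  have hms : ∀ u : H n → ℝ,
      (∫ z, ‖u z‖ ^ ((2 * (n : ℝ) + 2) * p / (2 * n + 2 - p))) = ms (ps n p) u := fun u => rfl
  obtain ⟨hS, hleast⟩ := hOpt
  constructor
  · intro φ hφ
    have h1 := hleast.1 φ hφ.1 hφ.2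
    rw [hgr φ hφ, hms φ] at h1
    have h2 : S * (ms (ps n p) φ ^ th n p) ≤ S * (S⁻¹ * en p (hg φ)) :=
      mul_le_mul_of_nonneg_left h1 hS.le
    rwa [← mul_assoc, mul_inv_cancel₀ hS.ne', one_mul] at h2
  · intro ε hε
    by_contra hcon
    push Not at hcon
    have hmem : SobolevIneq ℝ n p (S + ε)⁻¹ := by
      intro u hu hcu
      rw [hgr u ⟨hu, hcu⟩, hms u]
      have hd : Differentiable ℝ u := hu.differentiable (by simp)
      have hen : 0 ≤ en p (hg u) := integral_nonneg fun z => Real.rpow_nonneg (norm_nonneg _) _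
      have hm0 : 0 ≤ ms (ps n p) u :=
        integral_nonneg fun z => Real.rpow_nonneg (abs_nonneg _) _
      rcases hm0.lt_or_eq with hm | hm
      · set m := ms (ps n p) u with hmdef
        set c := m ^ (-(1 / ps n p)) with hc
        have hc0 : 0 < c := Real.rpow_pos_of_pos hm _
        have hT : Tst (fun z => c * u z) := ⟨contDiff_const.mul hu, hcu.mul_left⟩
        have hone : ms (ps n p) (fun z => c * u z) = 1 := by
          rw [ms_mul _ _ hc0.le, ← hmdef, hc, ← Real.rpow_mul hm.le]
          have : -(1 / ps n p) * ps n p = -1 := by field_simp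
          rw [this, Real.rpow_neg_one, inv_mul_cancel₀ hm.ne']
        have h1 := hcon _ hT hone
        rw [en_mul hHGA p hd hc0.le, hc, ← Real.rpow_mul hm.le] at h1
        have e1 : -(1 / ps n p) * p = -(th n p) := by rw [← hthp]; ring
        rw [e1, Real.rpow_neg hm.le] at h1
        have hmt : 0 < m ^ th n p := Real.rpow_pos_of_pos hm _
        rw [inv_mul_eq_div, le_div_iff₀ hmt] at h1
        show m ^ th n p ≤ (S + ε)⁻¹ * en p (hg u)
        rw [inv_mul_eq_div, le_div_iff₀ (by linarith)]
        linarith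
      · rw [← hm]
        show (0 : ℝ) ^ th n p ≤ (S + ε)⁻¹ * en p (hg u)
        rw [Real.zero_rpow hth.ne']
        positivity
    have h2 := hleast.2 hmem
    have h3 : (S + ε)⁻¹ < S⁻¹ := by
      rw [inv_lt_inv₀ (by linarith) hS]
      linarith
    linarith

end Pool.Agent.H60.HB.TQ
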