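import Pool.Agent.H27.HB.TA
import Pool.Agent.H27.HB.TD
import Pool.Agent.H60.HB.TQ
import Pool.Agent.H60.HB.SGN

/-!
# APX: approximation of extremals by test functions (MP_8352e3_an)
-/

set_option autoImplicit false

namespace Pool.Agent.H60.HB.APX
open MeasureTheory Set Filter Topology Pool.Agent.H80.HS Pool.Agent.H93.HQ Pool.Agent.H27.HB
open scoped ContDiff ENNReal

theorem add_rpow_le {a b q : ℝ} (ha : 0 ≤ a) (hb : 0 ≤ b) (hq : 1 ≤ q) :
    (a + b) ^ q ≤ 2 ^ (q - 1) * (a ^ q + b ^ q) := by
  have h := NNReal.rpow_add_le_mul_rpow_add_rpow ⟨a, ha⟩ ⟨b, hb⟩ hq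
  exact_mod_cast h

theorem nu_ne {n : ℕ} (z : H n) : nu z ≠ 0 := by
  intro h
  have h1 := congrArg Complex.re h
  have h2 : (nu z).re = 1 + Pool.Agent.H93.HQ.sq z := rfl
  have h3 : 0 ≤ Pool.Agent.H93.HQ.sq z := by unfold Pool.Agent.H93.HQ.sq; positivity
  rw [h2, Complex.zero_re] at h1
  linarith

theorem cont_nu {n : ℕ} : Continuous (nu : H n → ℂ) := by
  have e : (nu : H n → ℂ) = fun z => ((1 + Pool.Agent.H93.HQ.sq z : ℝ) : ℂ) +
      ((-z.2.2 : ℝ) : ℂ) * Complex.I := by
    funext z
    exact Complex.mk_eq_add_mul_I _ _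
  have hs : Continuous (Pool.Agent.H93.HQ.sq : H n → ℝ) := by
    unfold Pool.Agent.H93.HQ.sq
    fun_prop
  rw [e]
  refine Continuous.add (Complex.continuous_ofReal.comp (continuous_const.add hs))
    ((Complex.continuous_ofReal.comp ?_).mul continuous_const)
  fun_prop

theorem cont_zz {n : ℕ} (i : Option (Fin n)) : Continuous (zz i : H n → ℂ) := by
  cases i with
  | none =>
    have e : (zz none : H n → ℂ) = fun z => 2 / nu z - 1 := rfl
    rw [e]
    exact (continuous_const.div cont_nu nu_ne).sub continuous_const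
  | some j =>
    have e : (zz (some j) : H n → ℂ) = fun z => 2 * zc j z / nu z := rfl
    rw [e]
    refine Continuous.div (continuous_const.mul ?_) cont_nu nu_ne
    have e2 : (zc j : H n → ℂ) = fun z => ((z.1 j : ℝ) : ℂ) + ((z.2.1 j : ℝ) : ℂ) * Complex.I := by
      funext z
      exact Complex.mk_eq_add_mul_I _ _
    rw [e2]
    refine Continuous.add (Complex.continuous_ofReal.comp ?_)
      ((Complex.continuous_ofReal.comp ?_).mul continuous_const)
    · exact (EuclideanSpace.proj j).continuous.comp continuous_fst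
    · exact (EuclideanSpace.proj j).continuous.comp (continuous_fst.comp continuous_snd)

theorem cont_rz {n : ℕ} (i : Option (Fin n)) (b : Bool) : Continuous (rz i b : H n → ℝ) := by
  cases b
  · exact Complex.continuous_im.comp (cont_zz i)
  · exact Complex.continuous_re.comp (cont_zz i)

theorem abs_rz_le (hLIP : T_LIP) {n : ℕ} (i : Option (Fin n)) (b : Bool) (z : H n) :
    |rz i b z| ≤ 1 := by
  obtain ⟨C, -, h1, -⟩ := hLIP n
  have h2 := h1 z
  have h3 : rz i true z ^ 2 + rz i false z ^ 2 ≤ 1 := by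
    rw [← h2]
    exact Finset.single_le_sum (f := fun i => rz i true z ^ 2 + rz i false z ^ 2)
      (fun i _ => by positivity) (Finset.mem_univ i)
  rw [← sq_le_one_iff_abs_le_one]
  cases b
  · nlinarith [sq_nonneg (rz i true z)]
  · nlinarith [sq_nonneg (rz i false z)]

theorem pf_APX (hLPN : T_LPN) (hHGA : T_HGA) (hCLT : T_CLT) (hLIP : T_LIP) : T_APX := by
  intro n hn p S ε hp hp2 hε hOpt u g hE hCen
  obtain ⟨⟨hu, hg2, φ, hφ, h1, h2⟩, hmu, hen⟩ := hE
  have hp0 : (0 : ℝ) < p := by linarith
  have hq0 : (0 : ℝ) < 2 * n + 2 - p := by linarith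
  have hn1 : (0 : ℝ) ≤ n := Nat.cast_nonneg n
  have hq1 : 1 < ps n p := by
    unfold ps
    rw [lt_div_iff₀ hq0]
    nlinarith
  set q := ps n p with hq
  have hqpos : 0 < q := by linarith
  have mφ : ∀ k, MemLp (φ k) (ENNReal.ofReal q) := fun k => (hCLT n hn p hp hp2 _ (hφ k)).1
  have mg : ∀ k, MemLp (hg (φ k)) (ENNReal.ofReal p) := fun k =>
    (hCLT n hn p hp hp2 _ (hφ k)).2.1
  have L1 : Tendsto (fun k => ms q (φ k)) atTop (𝓝 1) := by
    have := hLPN n ℝ q φ u hq1.le mφ hu h1
    rw [← hmu]
    exact this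
  have L2 : Tendsto (fun k => en p (hg (φ k))) atTop (𝓝 S) := by
    have := hLPN n (G n) p (fun k => hg (φ k)) g hp.le mg hg2 h2
    rw [← hen]
    exact this
  set c : ℕ → ℝ := fun k => (ms q (φ k)) ^ (-(1 / q)) with hc
  have Lc : Tendsto c atTop (𝓝 1) := by
    have := L1.rpow_const (p := -(1 / q)) (Or.inl one_ne_zero)
    rwa [Real.one_rpow] at this
  have hc0 : ∀ k, 0 ≤ c k := fun k =>
    Real.rpow_nonneg (integral_nonneg fun z => Real.rpow_nonneg (abs_nonneg _) _) _
  set ψ : ℕ → H n → ℝ := fun k z => c k * φ k z with hψ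
  have hd : ∀ k, Differentiable ℝ (φ k) := fun k => (hφ k).1.differentiable (by simp)
  have hTψ : ∀ k, Tst (ψ k) := fun k => ⟨contDiff_const.mul (hφ k).1, (hφ k).2.mul_left⟩
  have mψ : ∀ k, MemLp (ψ k) (ENNReal.ofReal q) := fun k => (mφ k).const_mul (c k)
  -- distance to `u`
  have D : Tendsto (fun k => ms q (fun z => ψ k z - u z)) atTop (𝓝 0) := by
    have hub : ∀ k, ms q (fun z => ψ k z - u z) ≤
        2 ^ (q - 1) * (|c k - 1| ^ q * ms q (φ k) + ms q (fun z => φ k z - u z)) := by
      intro k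
      have i1 : Integrable fun z => |φ k z| ^ q := SGN.int_norm_rpow hqpos (mφ k)
      have i2 : Integrable fun z => |φ k z - u z| ^ q :=
        SGN.int_norm_rpow hqpos ((mφ k).sub hu)
      have i3 : Integrable fun z => |ψ k z - u z| ^ q :=
        SGN.int_norm_rpow hqpos ((mψ k).sub hu)
      unfold ms
      rw [← integral_const_mul (|c k - 1| ^ q), ← integral_add (i1.const_mul _) i2,
        ← integral_const_mul]
      refine integral_mono i3 (((i1.const_mul _).add i2).const_mul _) fun z => ?_
      have e : ψ k z - u z = (c k - 1) * φ k z + (φ k z - u z) := by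
        rw [hψ]; ring
      have a1 : |ψ k z - u z| ≤ |c k - 1| * |φ k z| + |φ k z - u z| := by
        rw [e, ← abs_mul]
        exact abs_add_le _ _
      have a2 : |ψ k z - u z| ^ q ≤ (|c k - 1| * |φ k z| + |φ k z - u z|) ^ q :=
        Real.rpow_le_rpow (abs_nonneg _) a1 hqpos.le
      refine a2.trans ((add_rpow_le (by positivity) (abs_nonneg _) hq1.le).trans (le_of_eq ?_))
      rw [Real.mul_rpow (abs_nonneg _) (abs_nonneg _)]
    have hlim : Tendsto (fun k => 2 ^ (q - 1) * (|c k - 1| ^ q * ms q (φ k) +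
        ms q (fun z => φ k z - u z))) atTop (𝓝 0) := by
      have t1 : Tendsto (fun k => |c k - 1| ^ q) atTop (𝓝 0) := by
        have t2 : Tendsto (fun k => |c k - 1|) atTop (𝓝 0) := by
          have := (Lc.sub_const 1).abs
          simpa using this
        have := t2.rpow_const (p := q) (Or.inr hqpos.le)
        rwa [Real.zero_rpow hqpos.ne'] at this
      have t3 := ((t1.mul L1).add h1).const_mul ((2 : ℝ) ^ (q - 1))
      simpa using t3
    exact squeeze_zero (fun k => integral_nonneg fun z => Real.rpow_nonneg (abs_nonneg _) _)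
      hub hlim
  -- the norm
  have hone : ∀ᶠ k in atTop, ms q (ψ k) = 1 := by
    have hpos : ∀ᶠ k in atTop, 0 < ms q (φ k) := L1.eventually (lt_mem_nhds one_pos)
    filter_upwards [hpos] with k hk
    have e1 : ms q (ψ k) = c k ^ q * ms q (φ k) := TQ.ms_mul q (φ k) (hc0 k)
    rw [e1, hc]
    simp only
    rw [← Real.rpow_mul hk.le]
    have : -(1 / q) * q = -1 := by field_simp
    rw [this, Real.rpow_neg_one, inv_mul_cancel₀ hk.ne']
  -- the energy
  have hene : ∀ᶠ k in atTop, en p (hg (ψ k)) ≤ S + ε := by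
    have e1 : ∀ k, en p (hg (ψ k)) = c k ^ p * en p (hg (φ k)) := fun k =>
      TQ.en_mul hHGA p (hd k) (hc0 k)
    have t1 : Tendsto (fun k => c k ^ p * en p (hg (φ k))) atTop (𝓝 S) := by
      have := (Lc.rpow_const (p := p) (Or.inl one_ne_zero)).mul L2
      rwa [Real.one_rpow, one_mul] at this
    filter_upwards [t1.eventually (gt_mem_nhds (show S < S + ε by linarith))] with k hk
    rw [e1]
    exact hk.le
  have hdist : ∀ᶠ k in atTop, ms q (fun z => ψ k z - u z) ≤ ε := by
    filter_upwards [D.eventually (gt_mem_nhds hε)] with k hk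
    exact hk.le
  -- the centre
  have hcen : ∀ (i : Option (Fin n)) (b : Bool),
      ∀ᶠ k in atTop, |∫ z, |ψ k z| ^ q * rz i b z| ≤ ε := by
    intro i b
    set w : H n → ℝ := fun z => ((1 + rz i b z) / 2) ^ (1 / q) with hw
    have hb : ∀ z, |rz i b z| ≤ 1 := abs_rz_le hLIP i b
    have hw0 : ∀ z, 0 ≤ (1 + rz i b z) / 2 := fun z => by
      have := (abs_le.1 (hb z)).1
      linarith
    have hw1 : ∀ z, (1 + rz i b z) / 2 ≤ 1 := fun z => by
      have := (abs_le.1 (hb z)).2
      linarith
    have hwc : Continuous w :=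
      ((continuous_const.add (cont_rz i b)).div_const 2).rpow_const
        fun z => Or.inr (by positivity)
    have hwn : ∀ z, 0 ≤ w z := fun z => Real.rpow_nonneg (hw0 z) _
    have hwl : ∀ z, w z ≤ 1 := fun z => Real.rpow_le_one (hw0 z) (hw1 z) (by positivity)
    have hwq : ∀ z, w z ^ q = (1 + rz i b z) / 2 := fun z => by
      rw [hw]
      simp only
      rw [← Real.rpow_mul (hw0 z)]
      have : 1 / q * q = 1 := by field_simp
      rw [this, Real.rpow_one]
    have memw : ∀ f : H n → ℝ, MemLp f (ENNReal.ofReal q) →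
        MemLp (fun z => w z * f z) (ENNReal.ofReal q) := by
      intro f hf
      refine hf.of_le (hwc.aestronglyMeasurable.mul hf.1) (Eventually.of_forall fun z => ?_)
      rw [norm_mul, Real.norm_eq_abs, abs_of_nonneg (hwn z)]
      exact mul_le_of_le_one_left (norm_nonneg _) (hwl z)
    have hms : ∀ f : H n → ℝ, (∫ z, ‖w z * f z‖ ^ q) = ∫ z, |f z| ^ q * ((1 + rz i b z) / 2) := by
      intro f
      refine integral_congr_ae (Eventually.of_forall fun z => ?_)
      simp only
      rw [norm_mul, Real.norm_eq_abs, abs_of_nonneg (hwn z),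
        Real.mul_rpow (hwn z) (norm_nonneg _), hwq z, Real.norm_eq_abs, mul_comm]
    have t1 := hLPN n ℝ q (fun k z => w z * ψ k z) (fun z => w z * u z) hq1.le
      (fun k => memw _ (mψ k)) (memw _ hu) (by
        refine squeeze_zero (fun k => integral_nonneg fun z => Real.rpow_nonneg (norm_nonneg _) _)
          (fun k => ?_) D
        have i1 : Integrable fun z => |ψ k z - u z| ^ q :=
          SGN.int_norm_rpow hqpos ((mψ k).sub hu)
        refine integral_mono_of_nonneg (Eventually.of_forall fun z =>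
          Real.rpow_nonneg (norm_nonneg _) _) i1 (Eventually.of_forall fun z => ?_)
        simp only
        refine Real.rpow_le_rpow (norm_nonneg _) ?_ hqpos.le
        rw [← mul_sub, norm_mul, Real.norm_eq_abs, abs_of_nonneg (hwn z), Real.norm_eq_abs]
        exact mul_le_of_le_one_left (abs_nonneg _) (hwl z))
    have t2 : Tendsto (fun k => ms q (ψ k)) atTop (𝓝 1) :=
      tendsto_const_nhds.congr' (hone.mono fun k hk => hk.symm)
    have split : ∀ f : H n → ℝ, MemLp f (ENNReal.ofReal q) →
        ∫ z, |f z| ^ q * rz i b z = 2 * (∫ z, ‖w z * f z‖ ^ q) - ms q f := by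
      intro f hf
      have i1 : Integrable fun z => |f z| ^ q := SGN.int_norm_rpow hqpos hf
      have i2 : Integrable fun z => |f z| ^ q * ((1 + rz i b z) / 2) := by
        have := SGN.int_norm_rpow hqpos (memw f hf)
        refine this.congr (Eventually.of_forall fun z => ?_)
        simp only
        rw [norm_mul, Real.norm_eq_abs, abs_of_nonneg (hwn z),
          Real.mul_rpow (hwn z) (norm_nonneg _), hwq z, Real.norm_eq_abs, mul_comm]
      rw [hms f]
      unfold ms
      rw [← integral_const_mul, ← integral_sub (i2.const_mul 2) i1]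
      refine integral_congr_ae (Eventually.of_forall fun z => ?_)
      simp only
      ring
    have hlim : Tendsto (fun k => ∫ z, |ψ k z| ^ q * rz i b z) atTop (𝓝 0) := by
      have e0 : (∫ z, |u z| ^ q * rz i b z) = 0 := hCen i b
      have e1 := split u hu
      rw [e0, hmu] at e1
      have t3 := (t1.const_mul 2).sub t2
      rw [← e1] at t3
      refine t3.congr fun k => ?_
      exact (split (ψ k) (mψ k)).symm
    have := hlim.abs
    rw [abs_zero] at this
    filter_upwards [this.eventually (gt_mem_nhds hε)] with k hk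
    exact hk.le
  have hcenall : ∀ᶠ k in atTop, ∀ ib : Option (Fin n) × Bool,
      |∫ z, |ψ k z| ^ q * rz ib.1 ib.2 z| ≤ ε := by
    rw [eventually_all]
    exact fun ib => hcen ib.1 ib.2
  obtain ⟨k, hk1, hk2, hk3, hk4⟩ := (hone.and (hene.and (hdist.and hcenall))).exists
  exact ⟨ψ k, ⟨hTψ k, hk1, hk2⟩, hk3, fun i b => hk4 (i, b)⟩

end Pool.Agent.H60.HB.APX
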