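import Pool.Agent.H27.HB.TA
import Pool.Agent.H27.HB.TF
import Pool.Agent.H17.HB.HGC
import Pool.Agent.H60.HB.APX

/-!
# MOM: recursion for the moments of weak solutions (MP_8352e3_an)
-/

set_option autoImplicit false

namespace Pool.Agent.H60.HB.MOM
open MeasureTheory Set Filter Topology Pool.Agent.H80.HS Pool.Agent.H93.HQ Pool.Agent.H27.HB
open Pool.Agent.H60.HB.APX (cont_nu nu_ne)
open scoped ContDiff ENNReal

theorem cont_sq {n : ℕ} : Continuous (Pool.Agent.H93.HQ.sq : H n → ℝ) := by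
  unfold Pool.Agent.H93.HQ.sq
  fun_prop

theorem ww_pos {n : ℕ} (z : H n) : 0 < ww z := by
  have h3 : 0 ≤ Pool.Agent.H93.HQ.sq z := by unfold Pool.Agent.H93.HQ.sq; positivity
  unfold ww
  positivity

theorem cont_ww {n : ℕ} : Continuous (ww : H n → ℝ) := by
  unfold ww
  have := cont_sq (n := n)
  fun_prop

theorem u0_pos {n : ℕ} (z : H n) : 0 < u0 n z := Real.rpow_pos_of_pos (ww_pos z) _

theorem cont_u0 {n : ℕ} : Continuous (u0 n : H n → ℝ) := by
  unfold u0
  exact cont_ww.rpow_const fun z => Or.inl (ww_pos z).ne'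

theorem cont_zc {n : ℕ} (j : Fin n) : Continuous (zc j : H n → ℂ) := by
  have e2 : (zc j : H n → ℂ) = fun z => ((z.1 j : ℝ) : ℂ) + ((z.2.1 j : ℝ) : ℂ) * Complex.I := by
    funext z
    exact Complex.mk_eq_add_mul_I _ _
  rw [e2]
  refine Continuous.add (Complex.continuous_ofReal.comp ?_)
    ((Complex.continuous_ofReal.comp ?_).mul continuous_const)
  · exact (EuclideanSpace.proj j).continuous.comp continuous_fst
  · exact (EuclideanSpace.proj j).continuous.comp (continuous_fst.comp continuous_snd)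

theorem cont_EE {n : ℕ} (α β : Fin n → ℕ) (a b : ℕ) : Continuous (EE α β a b : H n → ℂ) := by
  unfold EE
  refine Continuous.div ?_ ?_ ?_
  · refine ((Complex.continuous_ofReal.comp cont_u0).mul ?_).mul ?_
    · exact continuous_finsetProd _ fun j _ => (cont_zc j).pow _
    · exact continuous_finsetProd _ fun j _ => (Complex.continuous_conj.comp (cont_zc j)).pow _
  · exact (cont_nu.pow _).mul ((Complex.continuous_conj.comp cont_nu).pow _)
  · intro z
    refine mul_ne_zero (pow_ne_zero _ (nu_ne z)) (pow_ne_zero _ ?_)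
    exact (map_ne_zero _).2 (nu_ne z)

/-- a general limit by Hölder -/
theorem lim_pair {n : ℕ} {E : Type} [NormedAddCommGroup E] [InnerProductSpace ℝ E]
    {p q : ℝ} (hpq : p.HolderConjugate q) {g : H n → E} (hg1 : MemLp g (ENNReal.ofReal p))
    {v : ℕ → H n → E} {h : H n → E} (hv : ∀ k, MemLp (v k) (ENNReal.ofReal q))
    (hh : MemLp h (ENNReal.ofReal q))
    (hlim : Tendsto (fun k => ∫ z, ‖v k z - h z‖ ^ q) atTop (𝓝 0)) :
    Tendsto (fun k => ∫ z, inner ℝ (g z) (v k z)) atTop (𝓝 (∫ z, inner ℝ (g z) (h z))) := by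
  have : ENNReal.HolderConjugate (ENNReal.ofReal p) (ENNReal.ofReal q) := by
    rw [ENNReal.holderConjugate_iff]
    rw [← ENNReal.ofReal_inv_of_pos hpq.pos, ← ENNReal.ofReal_inv_of_pos hpq.symm.pos,
      ← ENNReal.ofReal_add (by have := hpq.pos; positivity) (by have := hpq.symm.pos; positivity),
      hpq.inv_add_inv_eq_one, ENNReal.ofReal_one]
  have hint : ∀ w : H n → E, MemLp w (ENNReal.ofReal q) →
      Integrable fun z => inner ℝ (g z) (w z) := by
    intro w hw
    have h1 : Integrable (fun z => ‖g z‖ * ‖w z‖) := hg1.norm.integrable_mul hw.norm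
    refine h1.mono' (hg1.1.inner hw.1) (Eventually.of_forall fun z => ?_)
    exact norm_inner_le_norm _ _
  rw [tendsto_iff_norm_sub_tendsto_zero]
  have hub : ∀ k, ‖(∫ z, inner ℝ (g z) (v k z)) - ∫ z, inner ℝ (g z) (h z)‖ ≤
      (∫ z, ‖g z‖ ^ p) ^ (1 / p) * (∫ z, ‖v k z - h z‖ ^ q) ^ (1 / q) := by
    intro k
    rw [← integral_sub (hint _ (hv k)) (hint _ hh)]
    refine (norm_integral_le_integral_norm _).trans ?_
    refine le_trans ?_ (integral_mul_norm_le_Lp_mul_Lq hpq hg1 ((hv k).sub hh))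
    have h1 : Integrable (fun z => ‖g z‖ * ‖v k z - h z‖) :=
      hg1.norm.integrable_mul ((hv k).sub hh).norm
    refine integral_mono_of_nonneg (Eventually.of_forall fun z => norm_nonneg _) h1
      (Eventually.of_forall fun z => ?_)
    simp only
    rw [← inner_sub_right]
    exact norm_inner_le_norm _ _
  have hl : Tendsto (fun k => (∫ z, ‖g z‖ ^ p) ^ (1 / p) *
      (∫ z, ‖v k z - h z‖ ^ q) ^ (1 / q)) atTop (𝓝 0) := by
    have hq := hpq.symm.pos
    have h1 := (hlim.rpow_const (p := 1 / q) (Or.inr (by positivity))).const_mul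
      ((∫ z, ‖g z‖ ^ p) ^ (1 / p))
    rw [Real.zero_rpow (by positivity), mul_zero] at h1
    exact h1
  exact squeeze_zero (fun k => norm_nonneg _) hub hl

theorem weak_ext (hWIN : T_WIN) {n : ℕ} (hn : 1 ≤ n) {μ : ℝ} {f : H n → ℝ} {g : H n → G n}
    (hWS : WS μ f g) {v : H n → ℝ} {h : H n → G n} (hv : Cl 2 v h) :
    ∫ z, inner ℝ (g z) (h z) = (4 * (n : ℝ) ^ 2 + 16 * μ) * ∫ z, f z / ww z * v z := by
  obtain ⟨⟨hf, hg2, -⟩, hweak⟩ := hWS
  obtain ⟨hv1, hh1, φ, hφ, h1, h2⟩ := hv
  have hn1 : (1 : ℝ) ≤ n := by exact_mod_cast hn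
  have hq : ps n 2 = (2 * n + 2) / n := by
    unfold ps
    have e0 : 2 * (n : ℝ) + 2 - 2 = 2 * n := by ring
    rw [e0]
    field_simp
  have hHGC := Pool.Agent.H17.HB.pf_HGC
  have hgc : ∀ k, Continuous (hg (φ k)) := fun k =>
    (hHGC n (φ k)).1 ((hφ k).1.of_le (by exact_mod_cast le_top))
  have hgs : ∀ k, HasCompactSupport (hg (φ k)) := fun k => (hHGC n (φ k)).2.2.2 (hφ k).2
  have t1 := lim_pair (g := g) (v := fun k => hg (φ k)) (h := h)
    (Real.HolderConjugate.two_two) hg2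
    (fun k => (hgc k).memLp_of_hasCompactSupport (hgs k)) hh1 h2
  -- the function `f / w`
  have hq0 : 0 < ps n 2 := by rw [hq]; positivity
  have hconj : ((2 * (n : ℝ) + 2) / (n + 2)).HolderConjugate (ps n 2) := by
    rw [Real.holderConjugate_iff]
    refine ⟨?_, ?_⟩
    · rw [lt_div_iff₀ (by positivity)]
      linarith
    · rw [hq, inv_div, inv_div, ← add_div]
      rw [div_eq_one_iff_eq (by positivity)]
      ring
  have hwm : MemLp (fun z : H n => (ww z)⁻¹) (ENNReal.ofReal ((n : ℝ) + 1)) := by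
    have hc : Continuous fun z : H n => (ww z)⁻¹ := cont_ww.inv₀ fun z => (ww_pos z).ne'
    rw [← integrable_norm_rpow_iff hc.aestronglyMeasurable (by simp; positivity)
      ENNReal.ofReal_ne_top, ENNReal.toReal_ofReal (by positivity)]
    refine (hWIN n ((n : ℝ) + 1) (by linarith)).congr (Eventually.of_forall fun z => ?_)
    simp only
    rw [Real.norm_eq_abs, abs_of_pos (inv_pos.2 (ww_pos z)), Real.rpow_neg (ww_pos z).le,
      Real.inv_rpow (ww_pos z).le]
  have hfw : MemLp (fun z => f z / ww z) (ENNReal.ofReal ((2 * (n : ℝ) + 2) / (n + 2))) := by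
    have : ENNReal.HolderTriple (ENNReal.ofReal (ps n 2)) (ENNReal.ofReal ((n : ℝ) + 1))
        (ENNReal.ofReal ((2 * (n : ℝ) + 2) / (n + 2))) := by
      constructor
      rw [← ENNReal.ofReal_inv_of_pos hq0, ← ENNReal.ofReal_inv_of_pos (by positivity),
        ← ENNReal.ofReal_inv_of_pos (by positivity), ← ENNReal.ofReal_add (by positivity)
        (by positivity)]
      congr 1
      rw [hq]
      field_simp
      try ring
    have h3 : MemLp (fun z => f z * (ww z)⁻¹)
        (ENNReal.ofReal ((2 * (n : ℝ) + 2) / (n + 2))) := hwm.mul' hf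
    refine (memLp_congr_ae (Eventually.of_forall fun z => ?_)).1 h3
    rw [div_eq_mul_inv]
  have hφm : ∀ k, MemLp (φ k) (ENNReal.ofReal (ps n 2)) := fun k =>
    (hφ k).1.continuous.memLp_of_hasCompactSupport (hφ k).2
  have t2 := lim_pair (g := fun z => f z / ww z) (v := φ) (h := v) hconj hfw hφm hv1 h1
  have e1 : ∀ k, (∫ z, inner ℝ (g z) (hg (φ k) z)) =
      (4 * (n : ℝ) ^ 2 + 16 * μ) * ∫ z, inner ℝ (f z / ww z) (φ k z) := by
    intro k
    rw [hweak (φ k) (hφ k)]
    congr 1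
    refine integral_congr_ae (Eventually.of_forall fun z => ?_)
    simp only [RCLike.inner_apply, conj_trivial]
    ring
  have t3 := t2.const_mul (4 * (n : ℝ) ^ 2 + 16 * μ)
  have t4 := tendsto_nhds_unique t1 (t3.congr fun k => (e1 k).symm)
  rw [t4]
  congr 1
  refine integral_congr_ae (Eventually.of_forall fun z => ?_)
  simp only [RCLike.inner_apply, conj_trivial]
  ring

/-- one term -/
theorem term (hBND : T_BND) {n : ℕ} (hn : 1 ≤ n) {f : H n → ℝ}
    (hfm : AEStronglyMeasurable f volume) (hfu : Integrable fun z => f z / ww z * u0 n z)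
    (c : ℂ) (α β : Fin n → ℕ) (a b : ℕ) (hc : c = 0 ∨ ((∑ j, α j) ≤ a ∧ (∑ j, β j) ≤ b)) :
    Integrable (fun z => ((f z / ww z : ℝ) : ℂ) * (c * EE α β a b z)) ∧
    ∫ z, ((f z / ww z : ℝ) : ℂ) * (c * EE α β a b z) = c * mo f α β a b := by
  have hfw : AEStronglyMeasurable (fun z => ((f z / ww z : ℝ) : ℂ)) volume := by
    have h1 : AEStronglyMeasurable (fun z => f z * (ww z)⁻¹) volume :=
      hfm.mul (cont_ww.inv₀ fun z => (ww_pos z).ne').aestronglyMeasurable
    have h2 : (fun z => ((f z / ww z : ℝ) : ℂ)) = fun z => ((f z * (ww z)⁻¹ : ℝ) : ℂ) := by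
      funext z
      rw [div_eq_mul_inv]
    rw [h2]
    exact Complex.continuous_ofReal.comp_aestronglyMeasurable h1
  have e : ∀ z, ((f z / ww z : ℝ) : ℂ) * (c * EE α β a b z) =
      c * (((f z / ww z : ℝ) : ℂ) * EE α β a b z) := fun z => by ring
  refine ⟨?_, ?_⟩
  · rcases hc with rfl | ⟨h1, h2⟩
    · simp
    · obtain ⟨C, hC, hb⟩ := hBND n hn α β a b h1 h2
      refine ((hfu.norm.const_mul C).const_mul ‖c‖).mono'
        (hfw.mul (continuous_const.mul (cont_EE α β a b)).aestronglyMeasurable)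
        (Eventually.of_forall fun z => ?_)
      rw [e, norm_mul, norm_mul, Complex.norm_real, norm_mul, Real.norm_eq_abs (u0 n z),
        abs_of_pos (u0_pos z)]
      refine mul_le_mul_of_nonneg_left ?_ (norm_nonneg _)
      have := mul_le_mul_of_nonneg_left (hb z).1 (norm_nonneg (f z / ww z))
      linarith
  · unfold mo
    rw [← integral_const_mul]
    exact integral_congr_ae (Eventually.of_forall e)

theorem pf_MOM (hWKE : T_WKE) (hMEM : T_MEM) (hBND : T_BND) (hWIN : T_WIN) : T_MOM := by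
  intro n hn μ f g hWS α β a b hα hβ
  obtain ⟨i1, i2, i3, w1, w2⟩ := hWKE n hn α β a b hα hβ f g hWS.1
  obtain ⟨m1, m2⟩ := hMEM n hn α β a b hα hβ
  have x1 := weak_ext hWIN hn hWS m1
  have x2 := weak_ext hWIN hn hWS m2
  have w1' : ∫ z, inner ℝ (g z) (hg (fun y => (EE α β a b y).re) z) =
    ∫ z, f z / ww z * (LL α β a b z).re := w1
  rw [x1] at w1'
  have w2' : ∫ z, inner ℝ (g z) (hg (fun y => (EE α β a b y).im) z) =
    ∫ z, f z / ww z * (LL α β a b z).im := w2
  rw [x2] at w2'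
  have hfm : AEStronglyMeasurable f volume := hWS.1.1.1
  -- `mo` in terms of real and imaginary parts
  have hmoi := (term hBND hn hfm i3 1 α β a b (Or.inr ⟨hα, hβ⟩)).1
  simp only [one_mul] at hmoi
  have hre : (mo f α β a b).re = ∫ z, f z / ww z * (EE α β a b z).re := by
    have h3 : RCLike.re (∫ z, ((f z / ww z : ℝ) : ℂ) * EE α β a b z) =
        ∫ z, RCLike.re (((f z / ww z : ℝ) : ℂ) * EE α β a b z) := (integral_re hmoi).symm
    refine Eq.trans h3 (integral_congr_ae (Eventually.of_forall fun z => ?_))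
    simp only [RCLike.re_eq_complex_re, Complex.re_ofReal_mul]
  have him : (mo f α β a b).im = ∫ z, f z / ww z * (EE α β a b z).im := by
    have h3 : RCLike.im (∫ z, ((f z / ww z : ℝ) : ℂ) * EE α β a b z) =
        ∫ z, RCLike.im (((f z / ww z : ℝ) : ℂ) * EE α β a b z) := (integral_im hmoi).symm
    refine Eq.trans h3 (integral_congr_ae (Eventually.of_forall fun z => ?_))
    simp only [RCLike.im_eq_complex_im, Complex.im_ofReal_mul]
  -- the terms
  have T1 := term hBND hn hfm i3 (16 * ((n : ℂ) / 2 + a) * ((n : ℂ) / 2 + b)) α β a b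
    (Or.inr ⟨hα, hβ⟩)
  have T2 := term hBND hn hfm i3 (8 * ((n : ℂ) / 2 + a) * ((b : ℂ) - ((∑ j, β j : ℕ) : ℂ)))
    α β a (b - 1) (by
      by_cases h : (∑ j, β j) = b
      · left
        rw [h, sub_self, mul_zero]
      · right
        exact ⟨hα, by omega⟩)
  have T3 := term hBND hn hfm i3 (8 * ((n : ℂ) / 2 + b) * ((a : ℂ) - ((∑ j, α j : ℕ) : ℂ)))
    α β (a - 1) b (by
      by_cases h : (∑ j, α j) = a
      · left
        rw [h, sub_self, mul_zero]
      · right
        exact ⟨by omega, hβ⟩)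
  have hupd : ∀ (γ : Fin n → ℕ) (j : Fin n), γ j ≠ 0 →
      (∑ i, Function.update γ j (γ j - 1) i) + 1 = ∑ i, γ i := by
    intro γ j hj
    rw [Finset.sum_update_of_mem (Finset.mem_univ j), ← Finset.add_sum_erase _ _
      (Finset.mem_univ j)]
    rw [Finset.sdiff_singleton_eq_erase]
    omega
  have T4 : ∀ j, Integrable (fun z => ((f z / ww z : ℝ) : ℂ) * ((α j : ℂ) * (β j : ℂ) *
        EE (Function.update α j (α j - 1)) (Function.update β j (β j - 1)) (a - 1) (b - 1) z)) ∧
      ∫ z, ((f z / ww z : ℝ) : ℂ) * ((α j : ℂ) * (β j : ℂ) *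
        EE (Function.update α j (α j - 1)) (Function.update β j (β j - 1)) (a - 1) (b - 1) z) =
      (α j : ℂ) * (β j : ℂ) *
        mo f (Function.update α j (α j - 1)) (Function.update β j (β j - 1)) (a - 1) (b - 1) := by
    intro j
    refine term hBND hn hfm i3 ((α j : ℂ) * (β j : ℂ)) _ _ (a - 1) (b - 1) ?_
    by_cases h1 : α j = 0
    · left
      rw [h1, Nat.cast_zero, zero_mul]
    · by_cases h2 : β j = 0
      · left
        rw [h2, Nat.cast_zero, mul_zero]
      · right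
        have e1 := hupd α j h1
        have e2 := hupd β j h2
        exact ⟨by omega, by omega⟩
  -- the integral of `LL`
  have hLLe : ∀ z, ((f z / ww z : ℝ) : ℂ) * LL α β a b z =
      ((f z / ww z : ℝ) : ℂ) * ((16 * ((n : ℂ) / 2 + a) * ((n : ℂ) / 2 + b)) * EE α β a b z) -
      ((f z / ww z : ℝ) : ℂ) * ((8 * ((n : ℂ) / 2 + a) * ((b : ℂ) - ((∑ j, β j : ℕ) : ℂ))) *
        EE α β a (b - 1) z) -
      ((f z / ww z : ℝ) : ℂ) * ((8 * ((n : ℂ) / 2 + b) * ((a : ℂ) - ((∑ j, α j : ℕ) : ℂ))) *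
        EE α β (a - 1) b z) -
      4 * ∑ j, ((f z / ww z : ℝ) : ℂ) * ((α j : ℂ) * (β j : ℂ) *
        EE (Function.update α j (α j - 1)) (Function.update β j (β j - 1)) (a - 1) (b - 1) z) := by
    intro z
    unfold LL
    rw [← Finset.mul_sum]
    ring
  have iS : Integrable fun z => 4 * ∑ j, ((f z / ww z : ℝ) : ℂ) * ((α j : ℂ) * (β j : ℂ) *
      EE (Function.update α j (α j - 1)) (Function.update β j (β j - 1)) (a - 1) (b - 1) z) :=
    (integrable_finsetSum _ fun j _ => (T4 j).1).const_mul 4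
  have hLL : ∫ z, ((f z / ww z : ℝ) : ℂ) * LL α β a b z =
      16 * ((n : ℂ) / 2 + a) * ((n : ℂ) / 2 + b) * mo f α β a b -
      8 * ((n : ℂ) / 2 + a) * ((b : ℂ) - ((∑ j, β j : ℕ) : ℂ)) * mo f α β a (b - 1) -
      8 * ((n : ℂ) / 2 + b) * ((a : ℂ) - ((∑ j, α j : ℕ) : ℂ)) * mo f α β (a - 1) b -
      4 * ∑ j, (α j : ℂ) * (β j : ℂ) *
        mo f (Function.update α j (α j - 1)) (Function.update β j (β j - 1)) (a - 1) (b - 1) := by
    rw [integral_congr_ae (Eventually.of_forall hLLe)]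
    refine (integral_sub ((T1.1.sub T2.1).sub T3.1) iS).trans ?_
    have s2 := (integral_sub (T1.1.sub T2.1) T3.1).trans
      (congrArg (fun x => x - _) (integral_sub T1.1 T2.1))
    rw [T1.2, T2.2, T3.2] at s2
    refine (congrArg (fun x => x - _) s2).trans ?_
    rw [integral_const_mul, integral_finsetSum _ fun j _ => (T4 j).1]
    congr 2
    exact Finset.sum_congr rfl fun j _ => (T4 j).2
  have iLL : Integrable fun z => ((f z / ww z : ℝ) : ℂ) * LL α β a b z := by
    refine ((((T1.1.sub T2.1).sub T3.1).sub iS)).congr (Eventually.of_forall fun z => ?_)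
    exact (hLLe z).symm
  have hmain : ((4 * (n : ℝ) ^ 2 + 16 * μ : ℝ) : ℂ) * mo f α β a b =
      ∫ z, ((f z / ww z : ℝ) : ℂ) * LL α β a b z := by
    apply Complex.ext
    · rw [Complex.re_ofReal_mul, hre, w1']
      have h3 : RCLike.re (∫ z, ((f z / ww z : ℝ) : ℂ) * LL α β a b z) =
          ∫ z, RCLike.re (((f z / ww z : ℝ) : ℂ) * LL α β a b z) := (integral_re iLL).symm
      refine Eq.trans (integral_congr_ae (Eventually.of_forall fun z => ?_)) h3.symm
      simp only [RCLike.re_eq_complex_re, Complex.re_ofReal_mul]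
    · rw [Complex.im_ofReal_mul, him, w2']
      have h3 : RCLike.im (∫ z, ((f z / ww z : ℝ) : ℂ) * LL α β a b z) =
          ∫ z, RCLike.im (((f z / ww z : ℝ) : ℂ) * LL α β a b z) := (integral_im iLL).symm
      refine Eq.trans (integral_congr_ae (Eventually.of_forall fun z => ?_)) h3.symm
      simp only [RCLike.im_eq_complex_im, Complex.im_ofReal_mul]
  rw [hLL] at hmain
  push_cast at hmain
  push_cast
  linear_combination -hmain

end Pool.Agent.H60.HB.MOM
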