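import Pool.Agent.H60.HB.LNB
import Pool.Agent.H60.HB.MOM

/-!
# WKP: the weak equation of the Jerison-Lee function, tested with `Cl p` (MP_8352e3_an)
-/

set_option autoImplicit false

namespace Pool.Agent.H60.HB.WKP
open MeasureTheory Set Filter Topology Pool.Agent.H80.HS Pool.Agent.H93.HQ Pool.Agent.H27.HB
open Pool.Agent.H60.HB.LNB (cont_ww ww_pos u0_pos u0_le cont_u0 u0_rpow ps_facts)
open Pool.Agent.H60.HB.MOM (lim_pair)
open scoped ContDiff ENNReal

theorem u0_smooth {n : ℕ} : ContDiff ℝ ∞ (u0 n : H n → ℝ) := by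
  have h1 : ContDiff ℝ ∞ (fun z : H n => Pool.Agent.H93.HQ.sq z) := by
    unfold Pool.Agent.H93.HQ.sq
    have h2 : ContDiff ℝ ∞ (fun z : H n => ‖z.1‖ ^ 2) := contDiff_fst.norm_sq ℝ
    have h3 : ContDiff ℝ ∞ (fun z : H n => ‖z.2.1‖ ^ 2) :=
      (contDiff_fst.comp contDiff_snd).norm_sq ℝ
    exact h2.add h3
  have h4 : ContDiff ℝ ∞ (fun z : H n => ww z) := by
    unfold ww
    exact ((contDiff_const.add h1).pow 2).add ((contDiff_snd.comp contDiff_snd).pow 2)
  unfold u0
  exact h4.rpow_const_of_ne fun z => (ww_pos z).ne'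

theorem EE0 {n : ℕ} (z : H n) :
    EE (fun _ : Fin n => 0) (fun _ => 0) 0 0 z = (u0 n z : ℂ) := by
  simp [EE]

theorem LL0 {n : ℕ} (z : H n) :
    LL (fun _ : Fin n => 0) (fun _ => 0) 0 0 z = ((4 * (n : ℝ) ^ 2 * u0 n z : ℝ) : ℂ) := by
  unfold LL
  rw [EE0]
  simp only [Finset.sum_const_zero, Nat.cast_zero, sub_zero, mul_zero, zero_mul, add_zero]
  push_cast
  ring

theorem holder_int {n : ℕ} {a b : ℝ} (hab : a.HolderConjugate b) {g f : H n → ℝ}
    (hg : MemLp g (ENNReal.ofReal a)) (hf : MemLp f (ENNReal.ofReal b)) :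
    Integrable fun z => g z * f z := by
  have : ENNReal.HolderConjugate (ENNReal.ofReal a) (ENNReal.ofReal b) := by
    rw [ENNReal.holderConjugate_iff]
    rw [← ENNReal.ofReal_inv_of_pos hab.pos, ← ENNReal.ofReal_inv_of_pos hab.symm.pos,
      ← ENNReal.ofReal_add (by have := hab.pos; positivity) (by have := hab.symm.pos; positivity),
      hab.inv_add_inv_eq_one, ENNReal.ofReal_one]
  exact hg.integrable_mul hf

theorem memLp_rpow {n : ℕ} {r s t : ℝ} (hs : 0 < s) (hst : r * s = t)
    {u : H n → ℝ} (hu0 : ∀ z, 0 ≤ u z) (hum : Measurable u)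
    (hu : Integrable fun z => u z ^ t) :
    MemLp (fun z => u z ^ r) (ENNReal.ofReal s) := by
  have hm : AEStronglyMeasurable (fun z => u z ^ r) (volume : Measure (H n)) :=
    (hum.pow_const r).aestronglyMeasurable
  rw [← integrable_norm_rpow_iff hm (by simpa using hs) ENNReal.ofReal_ne_top,
    ENNReal.toReal_ofReal hs.le]
  refine hu.congr (Eventually.of_forall fun z => ?_)
  simp only
  rw [Real.norm_of_nonneg (Real.rpow_nonneg (hu0 z) _), ← Real.rpow_mul (hu0 z), hst]

theorem pf_WKP (hWKE : T_WKE) (hUCL : T_UCL) (_hLNA : T_LNA) (hHGC : T_HGC) (hCLT : T_CLT) :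
    T_WKP := by
  intro n hn p hp1 hp2 f h hcl
  have hx : (1 : ℝ) ≤ n := by exact_mod_cast hn
  have hx0 : (0 : ℝ) < n := by linarith
  obtain ⟨q1, q2, q3, q4⟩ := ps_facts hn hp1 hp2
  obtain ⟨hf, hh, φ, hφ, l1, l2⟩ := hcl
  have hu0s : ContDiff ℝ ∞ (u0 n : H n → ℝ) := u0_smooth
  have hgc : Continuous (hg (u0 n)) := (hHGC n (u0 n)).1 (hu0s.of_le (by exact_mod_cast le_top))
  -- exponents
  have hp10 : 0 < p - 1 := by linarith
  set p' : ℝ := p / (p - 1) with hp'
  have hp'1 : 2 ≤ p' := by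
    rw [hp', le_div_iff₀ hp10]
    linarith
  have hp'2 : p' ≤ 5 / 2 := by
    rw [hp', div_le_iff₀ hp10]
    linarith
  have hconjp : p'.HolderConjugate p := by
    rw [Real.holderConjugate_iff]
    refine ⟨by linarith, ?_⟩
    rw [hp']
    field_simp
    ring
  have hq10 : 0 < ps n p - 1 := by linarith
  set q' : ℝ := ps n p / (ps n p - 1) with hq'
  have hq'0 : 0 < q' := by
    rw [hq']
    exact div_pos (by linarith) hq10
  have hconjq : q'.HolderConjugate (ps n p) := by
    rw [Real.holderConjugate_iff]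
    refine ⟨?_, ?_⟩
    · rw [hq', lt_div_iff₀ hq10]
      linarith
    · rw [hq']
      have : ps n p ≠ 0 := by linarith
      field_simp
      ring
  -- memberships
  have U1 : MemLp (hg (u0 n)) (ENNReal.ofReal p') :=
    (hUCL n hn p' (by linarith) hp'2).1.2.1
  have U2 : MemLp (hg (u0 n)) (ENNReal.ofReal p) := (hUCL n hn p (by linarith) (by linarith)).1.2.1
  have U3 : MemLp (u0 n) (ENNReal.ofReal (ps n p)) :=
    (hUCL n hn p (by linarith) (by linarith)).1.1
  have I2 : Integrable fun z => ‖hg (u0 n) z‖ ^ p := by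
    have := (integrable_norm_rpow_iff U2.1 (by simp; linarith) ENNReal.ofReal_ne_top).2 U2
    rwa [ENNReal.toReal_ofReal (by linarith)] at this
  have I3 : Integrable fun z => u0 n z ^ ps n p := by
    have := (integrable_norm_rpow_iff U3.1 (by simp; linarith) ENNReal.ofReal_ne_top).2 U3
    rw [ENNReal.toReal_ofReal (by linarith)] at this
    refine this.congr (Eventually.of_forall fun z => ?_)
    simp only
    rw [Real.norm_of_nonneg (u0_pos z).le]
  have V2 : MemLp (fun z => ‖hg (u0 n) z‖ ^ (p - 1)) (ENNReal.ofReal p') :=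
    memLp_rpow (by linarith) (by rw [hp']; field_simp) (fun z => norm_nonneg _)
      hgc.norm.measurable I2
  have V3 : MemLp (fun z => u0 n z ^ (ps n p - 1)) (ENNReal.ofReal q') :=
    memLp_rpow hq'0 (by rw [hq']; field_simp) (fun z => (u0_pos z).le) cont_u0.measurable I3
  have V4 : MemLp (fun z => u0 n z ^ (ps n 2 - 1)) (ENNReal.ofReal q') := by
    refine V3.mono (cont_u0.measurable.pow_const _).aestronglyMeasurable
      (Eventually.of_forall fun z => ?_)
    rw [Real.norm_of_nonneg (Real.rpow_nonneg (u0_pos z).le _),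
      Real.norm_of_nonneg (Real.rpow_nonneg (u0_pos z).le _)]
    exact Real.rpow_le_rpow_of_exponent_ge (u0_pos z) (u0_le z) (by linarith)
  have J1 : Integrable (fun z => inner ℝ (hg (u0 n) z) (h z)) := by
    have h1 := holder_int hconjp U1.norm hh.norm
    refine h1.mono' (U1.1.inner hh.1) (Eventually.of_forall fun z => ?_)
    exact norm_inner_le_norm _ _
  have J2 : Integrable (fun z => ‖hg (u0 n) z‖ ^ (p - 2) * inner ℝ (hg (u0 n) z) (h z)) := by
    have h1 := holder_int hconjp V2 hh.norm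
    have hm : AEStronglyMeasurable (fun z => ‖hg (u0 n) z‖ ^ (p - 2))
        (volume : Measure (H n)) := (hgc.norm.measurable.pow_const _).aestronglyMeasurable
    refine h1.mono' (hm.mul (U1.1.inner hh.1)) (Eventually.of_forall fun z => ?_)
    rw [norm_mul, Real.norm_of_nonneg (Real.rpow_nonneg (norm_nonneg _) _)]
    rcases eq_or_lt_of_le (norm_nonneg (hg (u0 n) z)) with h0 | h0
    · have h00 : hg (u0 n) z = 0 := norm_eq_zero.1 h0.symm
      rw [h00, inner_zero_left]
      simp only [norm_zero, mul_zero]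
      positivity
    · have e : ‖hg (u0 n) z‖ ^ (p - 1) = ‖hg (u0 n) z‖ ^ (p - 2) * ‖hg (u0 n) z‖ := by
        rw [← Real.rpow_add_one h0.ne']
        congr 1
        ring
      rw [e, mul_assoc]
      exact mul_le_mul_of_nonneg_left (norm_inner_le_norm _ _) (Real.rpow_nonneg h0.le _)
  refine ⟨J1, J2, holder_int hconjq V4 hf, holder_int hconjq V3 hf, ?_⟩
  -- the equation for test functions
  have hφg : ∀ k, MemLp (hg (φ k)) (ENNReal.ofReal p) := by
    intro k
    have hc : Continuous (hg (φ k)) :=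
      (hHGC n (φ k)).1 ((hφ k).1.of_le (by exact_mod_cast le_top))
    exact hc.memLp_of_hasCompactSupport ((hHGC n (φ k)).2.2.2 (hφ k).2)
  have hφm : ∀ k, MemLp (φ k) (ENNReal.ofReal (ps n p)) := fun k =>
    (hφ k).1.continuous.memLp_of_hasCompactSupport (hφ k).2
  have e0 : ∀ k, ∫ z, inner ℝ (hg (u0 n) z) (hg (φ k) z) =
      4 * (n : ℝ) ^ 2 * ∫ z, u0 n z ^ (ps n 2 - 1) * φ k z := by
    intro k
    have h1 := (hWKE n hn (fun _ => 0) (fun _ => 0) 0 0 (by simp) (by simp) (φ k) (hg (φ k))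
      (hCLT n hn 2 (by norm_num) (by linarith) (φ k) (hφ k))).2.2.2.1
    have h2 : (fun y : H n => (EE (fun _ : Fin n => 0) (fun _ => 0) 0 0 y).re) = u0 n := by
      funext y
      rw [EE0, Complex.ofReal_re]
    rw [h2] at h1
    have h3 : ∀ z : H n, inner ℝ (hg (u0 n) z) (hg (φ k) z) =
        inner ℝ (hg (φ k) z) (hg (u0 n) z) := fun z => real_inner_comm _ _
    simp only [h3]
    rw [h1, ← integral_const_mul]
    refine integral_congr_ae (Eventually.of_forall fun z => ?_)
    simp only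
    rw [LL0, Complex.ofReal_re]
    have h4 : u0 n z ^ (ps n 2 - 1) = u0 n z / ww z := by
      rw [u0_rpow]
      unfold u0
      rw [← Real.rpow_sub_one (ww_pos z).ne']
      congr 1
      have h5 : ps n 2 = 2 + 2 / n := by
        unfold ps
        have e0 : 2 * (n : ℝ) + 2 - 2 = 2 * n := by ring
        rw [e0]
        field_simp
      rw [h5]
      field_simp
      ring
    rw [h4]
    ring
  have t1 := lim_pair (g := hg (u0 n)) (v := fun k => hg (φ k)) (h := h) hconjp U1 hφg hh l2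
  have t2 := lim_pair (g := fun z => u0 n z ^ (ps n 2 - 1)) (v := φ) (h := f) hconjq V4 hφm hf l1
  have t3 := t2.const_mul (4 * (n : ℝ) ^ 2)
  have e1 : ∀ k, 4 * (n : ℝ) ^ 2 * ∫ z, inner ℝ (u0 n z ^ (ps n 2 - 1)) (φ k z) =
      ∫ z, inner ℝ (hg (u0 n) z) (hg (φ k) z) := by
    intro k
    rw [e0 k]
    congr 1
    refine integral_congr_ae (Eventually.of_forall fun z => ?_)
    simp only [RCLike.inner_apply, conj_trivial]
    ring
  have t4 := tendsto_nhds_unique t1 (t3.congr e1)
  rw [t4]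
  congr 1
  refine integral_congr_ae (Eventually.of_forall fun z => ?_)
  simp only [RCLike.inner_apply, conj_trivial]
  ring

end Pool.Agent.H60.HB.WKP
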