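import Pool.Agent.H27.HB.TX

/-!
# LNB: the linear part, second half (MP_8352e3_an)
-/

set_option autoImplicit false

namespace Pool.Agent.H60.HB.LNB
open MeasureTheory Set Filter Topology Pool.Agent.H80.HS Pool.Agent.H93.HQ Pool.Agent.H27.HB
open scoped ContDiff ENNReal

theorem cont_sq {n : ℕ} : Continuous (Pool.Agent.H93.HQ.sq : H n → ℝ) := by
  unfold Pool.Agent.H93.HQ.sq
  fun_prop

theorem one_le_ww {n : ℕ} (z : H n) : 1 ≤ ww z := by
  have h3 : 0 ≤ Pool.Agent.H93.HQ.sq z := by unfold Pool.Agent.H93.HQ.sq; positivity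
  unfold ww
  nlinarith [sq_nonneg z.2.2]

theorem cont_ww {n : ℕ} : Continuous (ww : H n → ℝ) := by
  unfold ww
  have := cont_sq (n := n)
  fun_prop

theorem ww_pos {n : ℕ} (z : H n) : 0 < ww z := lt_of_lt_of_le one_pos (one_le_ww z)

theorem u0_pos {n : ℕ} (z : H n) : 0 < u0 n z := Real.rpow_pos_of_pos (ww_pos z) _

theorem u0_le {n : ℕ} (z : H n) : u0 n z ≤ 1 := by
  refine Real.rpow_le_one_of_one_le_of_nonpos (one_le_ww z) ?_
  have : (0 : ℝ) ≤ n := Nat.cast_nonneg n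
  linarith

theorem cont_u0 {n : ℕ} : Continuous (u0 n) := by
  unfold u0
  exact cont_ww.rpow_const fun z => Or.inl (ww_pos z).ne'

theorem u0_rpow {n : ℕ} (z : H n) (s : ℝ) : u0 n z ^ s = ww z ^ (-(n : ℝ) / 2 * s) := by
  unfold u0
  rw [← Real.rpow_mul (ww_pos z).le]

/-- arithmetic of the exponents -/
theorem ps_facts {n : ℕ} (hn : 1 ≤ n) {p : ℝ} (h1 : 15 / 8 ≤ p) (h2 : p ≤ 2) :
    15 / 8 ≤ ps n p ∧ ps n p ≤ ps n 2 ∧ ps n 2 - ps n p ≤ 4 * (2 - p) ∧
    30 / 17 * (1 + 1 / (n : ℝ)) ≤ ps n p := by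
  have hx : (1 : ℝ) ≤ n := by exact_mod_cast hn
  have hx0 : (0 : ℝ) < n := by linarith
  have hD : 0 < 2 * (n : ℝ) + 2 - p := by linarith
  have hD2 : 0 < 2 * (n : ℝ) + 2 - 2 := by linarith
  have e : ps n 2 - ps n p = (2 * n + 2) ^ 2 * (2 - p) / ((2 * n) * (2 * n + 2 - p)) := by
    unfold ps
    have e2 : 2 * (n : ℝ) + 2 - 2 = 2 * n := by ring
    rw [e2, div_sub_div _ _ (by positivity) hD.ne']
    congr 1
    ring
  have hp2 : 0 ≤ 2 - p := by linarith
  refine ⟨?_, ?_, ?_, ?_⟩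
  · unfold ps
    rw [le_div_iff₀ hD]
    nlinarith
  · have : 0 ≤ ps n 2 - ps n p := by
      rw [e]
      positivity
    linarith
  · rw [e, div_le_iff₀ (by positivity)]
    have h3 : (2 * (n : ℝ) + 2) ^ 2 ≤ 4 * ((2 * n) * (2 * n + 2 - p)) := by nlinarith
    nlinarith
  · have e3 : 30 / 17 * (1 + 1 / (n : ℝ)) = 30 * (n + 1) / (17 * n) := by
      field_simp
    rw [e3]
    unfold ps
    rw [div_le_div_iff₀ (by positivity) hD]
    have h4 : 30 * (2 * (n : ℝ) + 2 - p) ≤ 2 * p * (17 * n) := by nlinarith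
    nlinarith

theorem ptw {u p q Q : ℝ} (hu : 0 < u) (hu1 : u ≤ 1) (hqQ : q ≤ Q)
    (hQ : Q - q ≤ 4 * (2 - p)) :
    |u ^ (Q - 1) - u ^ (q - 1)| ≤ 40 * (2 - p) * u ^ (q - 11 / 10) := by
  have h1 : u ^ (Q - 1) ≤ u ^ (q - 1) :=
    Real.rpow_le_rpow_of_exponent_ge hu hu1 (by linarith)
  rw [abs_sub_comm, abs_of_nonneg (by linarith)]
  have e1 : u ^ (Q - 1) = u ^ (q - 1) * u ^ (Q - q) := by
    rw [← Real.rpow_add hu]
    congr 1
    ring
  have e2 : 1 + Real.log u * (Q - q) ≤ u ^ (Q - q) := by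
    rw [Real.rpow_def_of_pos hu]
    have := Real.add_one_le_exp (Real.log u * (Q - q))
    linarith
  have e3 : -Real.log u ≤ 10 * u ^ (-(1 / 10) : ℝ) := by
    have h := Real.log_le_rpow_div (x := u⁻¹) (ε := 1 / 10) (by positivity) (by norm_num)
    rw [Real.log_inv, Real.inv_rpow hu.le, ← Real.rpow_neg hu.le] at h
    have e4 : u ^ (-(1 / 10) : ℝ) / (1 / 10) = 10 * u ^ (-(1 / 10) : ℝ) := by ring
    linarith
  have e5 : u ^ (q - 11 / 10) = u ^ (q - 1) * u ^ (-(1 / 10) : ℝ) := by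
    rw [← Real.rpow_add hu]
    congr 1
    ring
  rw [e1, e5]
  have p1 : 0 < u ^ (q - 1) := Real.rpow_pos_of_pos hu _
  have p2 : 0 < u ^ (-(1 / 10) : ℝ) := Real.rpow_pos_of_pos hu _
  have h3 : 1 - u ^ (Q - q) ≤ 4 * (2 - p) * (10 * u ^ (-(1 / 10) : ℝ)) := by
    have h4 : (Q - q) * (-Real.log u) ≤ (Q - q) * (10 * u ^ (-(1 / 10) : ℝ)) :=
      mul_le_mul_of_nonneg_left e3 (by linarith)
    have h5 : (Q - q) * (10 * u ^ (-(1 / 10) : ℝ)) ≤
        4 * (2 - p) * (10 * u ^ (-(1 / 10) : ℝ)) :=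
      mul_le_mul_of_nonneg_right hQ (by positivity)
    nlinarith
  have h6 := mul_le_mul_of_nonneg_left h3 p1.le
  nlinarith

theorem pf_LNB (hJJI : T_JJI) : T_LNB := by
  intro n hn
  have hx : (1 : ℝ) ≤ n := by exact_mod_cast hn
  have hx0 : (0 : ℝ) < n := by linarith
  set s0 : ℝ := 3 / 2 * (1 + 1 / (n : ℝ)) with hs0
  have hint : Integrable (fun z : H n => u0 n z ^ s0) := by
    have h := (hJJI n 0 (3 / 4 * ((n : ℝ) + 1)) hn le_rfl (by nlinarith)).1
    refine h.congr (Eventually.of_forall fun z => ?_)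
    change mz z ^ (0 : ℝ) * ww z ^ (-(3 / 4 * ((n : ℝ) + 1))) = u0 n z ^ s0
    rw [Real.rpow_zero, one_mul, u0_rpow]
    congr 1
    rw [hs0]
    field_simp
    ring
  set J : ℝ := ∫ z : H n, u0 n z ^ s0 with hJ
  have hJ0 : 0 ≤ J := integral_nonneg fun z => (Real.rpow_pos_of_pos (u0_pos z) _).le
  refine ⟨40 * (1 + J), by positivity, ?_⟩
  intro p hp1 hp2 f hf
  obtain ⟨q1, q2, q3, q4⟩ := ps_facts hn hp1 hp2
  set q : ℝ := ps n p with hq
  set Q : ℝ := ps n 2 with hQ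
  set q' : ℝ := q / (q - 1) with hq'
  have hq10 : 0 < q - 1 := by linarith
  have hq'0 : 0 < q' := by positivity
  have hq'1 : 1 ≤ q' := by
    rw [hq', le_div_iff₀ hq10]
    linarith
  have hq'2 : q' ≤ 15 / 7 := by
    rw [hq', div_le_iff₀ hq10]
    linarith
  have hconj : q'.HolderConjugate q := by
    rw [Real.holderConjugate_iff]
    refine ⟨?_, ?_⟩
    · rw [hq', lt_div_iff₀ hq10]
      linarith
    · rw [hq']
      field_simp
      ring
  have hexp : s0 ≤ (q - 11 / 10) * q' := by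
    have e1 : (q - 11 / 10) * q' = q - 1 / 10 * q' := by
      rw [hq']
      field_simp
      ring
    rw [e1, hs0]
    have : 0 < 1 / (n : ℝ) := by positivity
    linarith
  set w : H n → ℝ := fun z => u0 n z ^ (Q - 1) - u0 n z ^ (q - 1) with hw
  have hwc : Continuous w := by
    have h1 : Continuous fun z : H n => u0 n z ^ (Q - 1) :=
      cont_u0.rpow_const fun z => Or.inl (u0_pos z).ne'
    have h2 : Continuous fun z : H n => u0 n z ^ (q - 1) :=
      cont_u0.rpow_const fun z => Or.inl (u0_pos z).ne'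
    exact h1.sub h2
  have h2p : 0 ≤ 2 - p := by linarith
  have hb : ∀ z, ‖w z‖ ^ q' ≤ (40 * (2 - p)) ^ q' * u0 n z ^ s0 := by
    intro z
    have h1 : ‖w z‖ ≤ 40 * (2 - p) * u0 n z ^ (q - 11 / 10) := by
      rw [Real.norm_eq_abs]
      exact ptw (u0_pos z) (u0_le z) q2 q3
    refine (Real.rpow_le_rpow (norm_nonneg _) h1 hq'0.le).trans ?_
    rw [Real.mul_rpow (by positivity) (Real.rpow_nonneg (u0_pos z).le _),
      ← Real.rpow_mul (u0_pos z).le]
    refine mul_le_mul_of_nonneg_left ?_ (Real.rpow_nonneg (by positivity) _)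
    exact Real.rpow_le_rpow_of_exponent_ge (u0_pos z) (u0_le z) hexp
  have hwi : Integrable fun z => ‖w z‖ ^ q' := by
    refine (hint.const_mul ((40 * (2 - p)) ^ q')).mono'
      ((hwc.norm.rpow_const fun z => Or.inr hq'0.le).aestronglyMeasurable)
      (Eventually.of_forall fun z => ?_)
    rw [Real.norm_of_nonneg (Real.rpow_nonneg (norm_nonneg _) _)]
    exact hb z
  have hwm : MemLp w (ENNReal.ofReal q') := by
    rw [← integrable_norm_rpow_iff hwc.aestronglyMeasurable (by simpa using hq'0)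
      ENNReal.ofReal_ne_top, ENNReal.toReal_ofReal hq'0.le]
    exact hwi
  have hH := integral_mul_norm_le_Lp_mul_Lq hconj hwm hf
  have h1 : |∫ z, w z * f z| ≤ ∫ z, ‖w z‖ * ‖f z‖ := by
    rw [← Real.norm_eq_abs]
    refine (norm_integral_le_integral_norm _).trans (le_of_eq ?_)
    simp only [norm_mul]
  have h2 : (∫ z, ‖w z‖ ^ q') ≤ (40 * (2 - p)) ^ q' * J := by
    rw [hJ, ← integral_const_mul]
    exact integral_mono hwi (hint.const_mul _) hb
  have h3 : (∫ z, ‖w z‖ ^ q') ^ (1 / q') ≤ 40 * (2 - p) * (1 + J) := by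
    refine (Real.rpow_le_rpow (integral_nonneg fun z => Real.rpow_nonneg (norm_nonneg _) _) h2
      (by positivity)).trans ?_
    rw [Real.mul_rpow (Real.rpow_nonneg (by positivity) _) hJ0, ← Real.rpow_mul (by positivity),
      mul_one_div_cancel hq'0.ne', Real.rpow_one]
    refine mul_le_mul_of_nonneg_left ?_ (by positivity)
    have h4 : J ^ (1 / q') ≤ (1 + J) ^ (1 / q') :=
      Real.rpow_le_rpow hJ0 (by linarith) (by positivity)
    have h5 : (1 + J) ^ (1 / q') ≤ (1 + J) ^ (1 : ℝ) :=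
      Real.rpow_le_rpow_of_exponent_le (by linarith) (by rw [div_le_one hq'0]; exact hq'1)
    rw [Real.rpow_one] at h5
    linarith
  have h6 : (∫ z, ‖f z‖ ^ q) = ms q f := by
    unfold ms
    simp only [Real.norm_eq_abs]
  rw [h6] at hH
  have h7 : 0 ≤ ms q f ^ (1 / q) := by
    refine Real.rpow_nonneg ?_ _
    exact integral_nonneg fun z => Real.rpow_nonneg (abs_nonneg _) _
  calc |∫ z, w z * f z| ≤ (∫ z, ‖w z‖ ^ q') ^ (1 / q') * ms q f ^ (1 / q) := h1.trans hH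
    _ ≤ (40 * (2 - p) * (1 + J)) * ms q f ^ (1 / q) := mul_le_mul_of_nonneg_right h3 h7
    _ = 40 * (1 + J) * (2 - p) * ms q f ^ (1 / q) := by ring

end Pool.Agent.H60.HB.LNB
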