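import Pool.Agent.H27.HB.TA

/-!
# CLT: test functions lie in the class (MP_8352e3_an)
-/

set_option autoImplicit false

namespace Pool.Agent.H60.HB
open MeasureTheory Set Filter Topology Pool.Agent.H80.HS Pool.Agent.H93.HQ Pool.Agent.H27.HB
open scoped ContDiff ENNReal

theorem ps_pos {n : ℕ} {p : ℝ} (hp : 1 < p) (hp2 : p < 2 * n + 2) : 0 < ps n p := by
  unfold ps
  have h1 : (0 : ℝ) < 2 * n + 2 - p := by linarith
  positivity

theorem pf_CLT (hHGC : T_HGC) : T_CLT := by
  intro n _ p hp hp2 φ hφ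
  have hps := ps_pos hp hp2
  obtain ⟨h1, -, -, h4⟩ := hHGC n φ
  have hc1 : Continuous (hg φ) := h1 (hφ.1.of_le (by exact_mod_cast le_top))
  refine ⟨hφ.1.continuous.memLp_of_hasCompactSupport hφ.2,
    hc1.memLp_of_hasCompactSupport (h4 hφ.2), fun _ => φ, fun _ => hφ, ?_, ?_⟩
  · have e : ms (ps n p) (fun z => φ z - φ z) = 0 := by
      unfold ms
      simp [Real.zero_rpow hps.ne']
    simp only [e]
    exact tendsto_const_nhds
  · have e : en p (fun z => hg φ z - hg φ z) = 0 := by
      unfold en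
      simp [Real.zero_rpow (by linarith : p ≠ 0)]
    simp only [e]
    exact tendsto_const_nhds

end Pool.Agent.H60.HB
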