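import Pool.Agent.H27.HB.TA
import Pool.Agent.H27.HB.TX

/-!
# CVS: strong convexity with the sharp constant (MP_8352e3_an)
-/

set_option autoImplicit false

namespace Pool.Agent.H60.HB.CVS
open MeasureTheory Set Filter Topology Pool.Agent.H80.HS Pool.Agent.H93.HQ Pool.Agent.H27.HB
open scoped ContDiff ENNReal

/-- derivative of `|x + t v|^p` -/
theorem der_line {n : ℕ} {p : ℝ} (hp : 1 < p) (x v : G n) (t : ℝ) :
    HasDerivAt (fun t : ℝ => ‖x + t • v‖ ^ p)
      (p * inner ℝ (‖x + t • v‖ ^ (p - 2) • (x + t • v)) v) t := by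
  have h1 : HasDerivAt (fun t : ℝ => x + t • v) v t := by
    simpa using ((hasDerivAt_id t).smul_const v).const_add x
  have h2 := (hasFDerivAt_norm_rpow (x + t • v) hp).comp_hasDerivAt t h1
  refine h2.congr_deriv ?_
  rw [inner_smul_left]
  show (p * ‖x + t • v‖ ^ (p - 2)) • (inner ℝ (x + t • v) v : ℝ) = _
  rw [smul_eq_mul, mul_assoc]
  rfl

theorem pf_CVS (hMNO : T_MNO) : T_CVS := by
  intro n p hp1 hp2 a b
  have hp0 : p ≠ 0 := by linarith
  rcases eq_or_lt_of_le (add_nonneg (norm_nonneg a) (norm_nonneg b)) with h0 | h0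
  · have ha : a = 0 := norm_eq_zero.1 (le_antisymm (by linarith [norm_nonneg b]) (norm_nonneg a))
    have hb : b = 0 := norm_eq_zero.1 (le_antisymm (by linarith [norm_nonneg a]) (norm_nonneg b))
    rw [ha, hb]
    simp [Real.zero_rpow hp0]
  · obtain ⟨v, hv⟩ : ∃ v : G n, v = b - a := ⟨_, rfl⟩
    obtain ⟨M, hM⟩ : ∃ M : ℝ, M = 2 * (‖a‖ + ‖b‖) := ⟨_, rfl⟩
    have hM0 : 0 < M := by rw [hM]; linarith
    obtain ⟨D, hD⟩ : ∃ D : ℝ, D = p * inner ℝ (‖a‖ ^ (p - 2) • a) v := ⟨_, rfl⟩
    obtain ⟨Q, hQ⟩ : ∃ Q : ℝ, Q = p * (p - 1) / 2 * (M ^ (p - 2) * ‖v‖ ^ 2) := ⟨_, rfl⟩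
    obtain ⟨g, hg⟩ : ∃ g : ℝ → ℝ, g = fun t => ‖a + t • v‖ ^ p - t * D - Q * t ^ 2 := ⟨_, rfl⟩
    have hder : ∀ t, HasDerivAt g (p * inner ℝ (‖a + t • v‖ ^ (p - 2) • (a + t • v)) v -
        D - Q * (2 * t)) t := by
      intro t
      rw [hg]
      have h1 := ((der_line hp1 a v t).sub ((hasDerivAt_id t).mul_const D)).sub
        (((hasDerivAt_id t).pow 2).const_mul Q)
      refine h1.congr_deriv ?_
      simp
    have hmono : MonotoneOn g (Icc 0 1) := by
      refine monotoneOn_of_deriv_nonneg (convex_Icc 0 1)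
        (fun t _ => (hder t).continuousAt.continuousWithinAt)
        (fun t _ => (hder t).differentiableAt.differentiableWithinAt) fun t ht => ?_
      rw [interior_Icc] at ht
      obtain ⟨ht0, ht1⟩ := ht
      rw [(hder t).deriv]
      obtain ⟨x, hx⟩ : ∃ x : G n, x = a + t • v := ⟨_, rfl⟩
      rw [← hx]
      have hxa : x - a = t • v := by
        rw [hx]
        abel
      have hx' : x = (1 - t) • a + t • b := by
        rw [hx, hv]
        module
      have hnx : ‖x‖ ≤ (1 - t) * ‖a‖ + t * ‖b‖ := by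
        rw [hx']
        refine (norm_add_le _ _).trans ?_
        rw [norm_smul, norm_smul, Real.norm_eq_abs, Real.norm_eq_abs,
          abs_of_nonneg (by linarith : 0 ≤ 1 - t), abs_of_nonneg ht0.le]
      have hB : ‖x‖ + ‖a‖ ≤ M := by
        rw [hM]
        nlinarith [norm_nonneg a, norm_nonneg b]
      have hB0 : 0 < ‖x‖ + ‖a‖ := by
        rcases eq_or_lt_of_le (add_nonneg (norm_nonneg x) (norm_nonneg a)) with h1 | h1
        · exfalso
          have hx0 : x = 0 :=
            norm_eq_zero.1 (le_antisymm (by linarith [norm_nonneg a]) (norm_nonneg x))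
          have ha0 : a = 0 :=
            norm_eq_zero.1 (le_antisymm (by linarith [norm_nonneg x]) (norm_nonneg a))
          have h2 : t • v = 0 := by rw [← hxa, hx0, ha0, sub_zero]
          have hv0 : v = 0 := by
            rcases smul_eq_zero.1 h2 with h3 | h3
            · linarith
            · exact h3
          have hb0 : b = 0 := by
            rw [hv0, ha0, sub_zero] at hv
            exact hv.symm
          rw [ha0, hb0, norm_zero, add_zero] at h0
          exact lt_irrefl _ h0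
        · exact h1
      have hpw : M ^ (p - 2) ≤ (‖x‖ + ‖a‖) ^ (p - 2) :=
        Real.rpow_le_rpow_of_nonpos hB0 hB (by linarith)
      have h3 := hMNO n p hp1 hp2 x a
      rw [hxa, inner_smul_right, norm_smul, mul_pow, Real.norm_eq_abs, sq_abs] at h3
      have hp' : 0 ≤ p - 1 := by linarith
      have h4 : (p - 1) * M ^ (p - 2) * (t ^ 2 * ‖v‖ ^ 2) ≤
          t * inner ℝ (‖x‖ ^ (p - 2) • x - ‖a‖ ^ (p - 2) • a) v := by
        refine le_trans ?_ h3
        gcongr
      have h5 : t * ((p - 1) * M ^ (p - 2) * (t * ‖v‖ ^ 2)) ≤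
          t * inner ℝ (‖x‖ ^ (p - 2) • x - ‖a‖ ^ (p - 2) • a) v := by
        refine le_trans (le_of_eq ?_) h4
        ring
      have h6 := le_of_mul_le_mul_left h5 ht0
      rw [inner_sub_left] at h6
      rw [hD, hQ]
      nlinarith
    have h7 := hmono (left_mem_Icc.2 zero_le_one) (right_mem_Icc.2 zero_le_one) zero_le_one
    rw [hg] at h7
    simp only [zero_smul, add_zero, zero_mul, sub_zero, one_smul, one_mul, one_pow, mul_one,
      mul_zero, ne_eq, OfNat.ofNat_ne_zero, not_false_eq_true, zero_pow] at h7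
    have h8 : a + v = b := by rw [hv]; abel
    rw [h8, hD, hQ] at h7
    rw [inner_smul_left] at h7
    have h9 : ‖a - b‖ = ‖v‖ := by rw [hv, norm_sub_rev]
    rw [h9, ← hM, ← hv]
    have h10 : (starRingEnd ℝ) (‖a‖ ^ (p - 2)) = ‖a‖ ^ (p - 2) := rfl
    rw [h10] at h7
    linarith

end Pool.Agent.H60.HB.CVS
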