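import Pool.Agent.H75.HB.FL2

/-!
FL1: flaps which avoid the atomic submodel are small.
-/

set_option autoImplicit false

open Set Pool.Agent.TK Pool.Agent.ST

namespace Pool.Agent.HB

variable {C : Type} {c0 : C}

theorem pf_FL1 {C : Type} {c0 : C} (hREL : REL C) (hCTR : CTR C) : FL1 C c0 := by
  classical
  intro X b r M s a A hM hdr hA hfin S hSA y hyS hdis
  by_contra hns
  have hyA : y ∉ A := fun h => Set.disjoint_left.1 hdis (self_mem_cp hyS) h
  obtain ⟨e, he⟩ : ∃ e : List ℕ, (∀ z ∈ e, z ∈ A) ∧ ∀ D : Set ℕ, IsCp M (ms S) D →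
      ¬ small c0 b M S D → (D ∩ A).Nonempty → ∃ z ∈ e, z ∈ D := by
    let f : Set ℕ → ℕ := fun D => if h : (D ∩ A).Nonempty then h.choose else 0
    have hf : ∀ D : Set ℕ, (D ∩ A).Nonempty → f D ∈ D ∩ A := by
      intro D hD
      change (if h : (D ∩ A).Nonempty then h.choose else 0) ∈ D ∩ A
      rw [dif_pos hD]
      exact hD.choose_spec
    refine ⟨((((hfin S).toFinset.filter fun D => (D ∩ A).Nonempty).image f).toList), ?_, ?_⟩
    · intro z hz
      rw [Finset.mem_toList, Finset.mem_image] at hz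
      obtain ⟨D, hD, rfl⟩ := hz
      rw [Finset.mem_filter] at hD
      exact (hf D hD.2).2
    · intro D h1 h2 h3
      refine ⟨f D, ?_, (hf D h3).1⟩
      rw [Finset.mem_toList, Finset.mem_image]
      refine ⟨D, ?_, rfl⟩
      rw [Finset.mem_filter, Set.Finite.mem_toFinset]
      exact ⟨⟨h1, h2⟩, h3⟩
  set X0 : List ℕ := S ++ e with hX0
  have hX0A : ∀ z ∈ X0, z ∈ A := by
    intro z hz
    simp only [hX0, List.mem_append] at hz
    rcases hz with hz | hz
    · exact hSA hz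
    · exact he.1 z hz
  obtain ⟨y', hy'A, hE⟩ := hA.tv X0 hX0A y 0
  have hb : bf M M univ univ (W b) ((y, y') :: dg X0) := by
    have := hdr _ _ _ _ _ hE.2
    rw [dg_eq_zip]
    exact this
  obtain ⟨hy'X, hkey, hbf⟩ := fl2_common (S := S) hREL hCTR
    (fun z hz => by simp [hX0, hz]) (fun h => hyA (hX0A y h)) hb
  have hy'S : y' ∉ S := fun h => hy'X (by simp [hX0, h])
  have hFB : FB b M S (cp M (ms S) y') M S (cp M (ms S) y) := by
    refine FB.symm ⟨rfl, bf_mono hbf ?_⟩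
    intro z hz
    rw [← dg_eq_zip] at hz
    obtain ⟨h1, h2⟩ := mem_dg.1 hz
    exact List.mem_cons_of_mem _ (mem_dg.2 ⟨h1, by simp [hX0, h2]⟩)
  have hns' : ¬ small c0 b M S (cp M (ms S) y') := fun h => hns (h.fb hFB)
  obtain ⟨z, hz, hzD⟩ := he.2 _ (isCp_cp hy'S) hns' ⟨y', self_mem_cp hy'S, hy'A⟩
  have hzX : z ∈ X0 := by simp [hX0, hz]
  exact Set.disjoint_left.1 hdis ((hkey z hzX).2 hzD) (hX0A z hzX)

end Pool.Agent.HB
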